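import Mathlib

set_option autoImplicit false

/-!
# Circular Nim `CN(n, k)` has no invariant vector for `2 n / 3 < k ≤ n - 2`, for `k = (n + 1) / 2`,
# and for `k = (n + 2) / 2`

A move of `CN(n, k)` leaves `m = n - k` consecutive stacks untouched.

Main lemma (`group`): let `S` be a set of stacks and `T` a further group of stacks such that each
interval of `m` stacks contains a stack of `S` or the whole group `T`, and such that each of these
groups (the stacks of `S` and `T`) is the only one that is met by a suitable interval of `m` stacks.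
Then a position supported in `S ∪ T` is a P-position if all these groups have the same sum.

Let `z ≠ 0` be an invariant vector. If `z` has an empty stack `w`, take the P-position `p` with `t`
tokens on each of the stacks `w`, `w + m`, and the other stacks `w + m + 1`, `w + 2 m + 1`, ... and
`w - m` of `S`, where `t` is the number of tokens of `z` between `w` and `w + m`. From the P-position
`p + z` one can move to the P-position with `t` tokens on each stack of `S` and the tokens of `z`
between `w` and `w + m`, a contradiction. If `z` has no empty stack, the same works with `t - 1`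
instead of `t` tokens in `p`.

For `n = 2 m + 2` there is a similar family of P-positions with overlapping groups (`groupB`): `t`
tokens on each of the stacks `w` and `w + m + 2`, and `t` tokens in each of the two intervals of `m`
stacks between them. It shows that `z w = 0` implies `z (w + 1) = 1` and `z (w + m + 1) = 0`, and
that (for `m ≥ 3`) two neighbouring stacks never both have `z = 1`. So `z` alternates, which is
impossible if `m` is even. For odd `m` the alternating vectors are excluded in `stepC` (with the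
same family, stretched to every second stack) and `step8`.

For `k = n - 2`, `n ≥ 5`, we determine in addition the P-positions with at most one token on every
stack.
-/

namespace Pool.Agent.Results.MP_30d1b9_co.NoInvariantVectors

/-- A position: the numbers of tokens on the `n` stacks, which stand on a cycle. -/
abbrev Pos (n : ℕ) : Type := ZMod n → ℕ

/-- The moves of `CN(n, k)`: remove at least one token, only from the stacks `i, ..., i + k - 1`
for some `i`. -/
def Move (n k : ℕ) (p q : Pos n) : Prop :=
  q ≠ p ∧ (∀ j, q j ≤ p j) ∧ ∃ i : ZMod n, ∀ j, q j ≠ p j → ∃ l : ℕ, l < k ∧ j = i + (l : ZMod n)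

/-- The P-positions: each move to a position `q` has an answer `r q` which leads to a P-position
again. (The player who makes the last move wins.) -/
inductive IsP (n k : ℕ) : Pos n → Prop
  | mk (p : Pos n) (r : Pos n → Pos n) (h : ∀ q, Move n k p q → Move n k q (r q))
      (h' : ∀ q, Move n k p q → IsP n k (r q)) : IsP n k p

/-- `z` is an invariant vector of `CN(n, k)`: its entries are `0` and `1`, and adding an integral
multiple of `z` to a P-position gives a P-position if all entries are nonnegative. -/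
def IsInvariant (n k : ℕ) (z : Pos n) : Prop :=
  (∀ j, z j = 0 ∨ z j = 1) ∧
    ∀ p, IsP n k p → ∀ (c : ℤ) (q : Pos n), (∀ j, (q j : ℤ) = p j + c * z j) → IsP n k q

/-- A set of pairwise non-neighbouring stacks which is maximal with this property. -/
def IsMaxIndep {n : ℕ} (J : Set (ZMod n)) : Prop :=
  (∀ x ∈ J, x + 1 ∉ J) ∧ ∀ x, x ∉ J → x + 1 ∈ J ∨ x - 1 ∈ J

open Classical in
/-- The position with one token on each stack outside `J` and none on the stacks of `J`. -/
noncomputable def co {n : ℕ} (J : Set (ZMod n)) : Pos n := fun x => if x ∈ J then 0 else 1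

theorem isP_zero (n k : ℕ) : IsP n k 0 := by
  have h0 : ∀ q, ¬ Move n k 0 q := by
    intro q hq
    exact hq.1 (funext fun j => Nat.le_zero.1 (hq.2.1 j))
  exact IsP.mk _ id (fun q hq => absurd hq (h0 q)) (fun q hq => absurd hq (h0 q))

theorem not_both {n k : ℕ} {p : Pos n} (hp : IsP n k p) : ∀ q, Move n k p q → ¬ IsP n k q := by
  induction hp with
  | mk p r h h' ih =>
    intro q hq hPq
    cases hPq with
    | mk _ s hs hs' => exact ih q hq _ (hs _ (h q hq)) (hs' _ (h q hq))

theorem co_of_mem {n : ℕ} {J : Set (ZMod n)} {x : ZMod n} (h : x ∈ J) : co J x = 0 := by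
  simp [co, h]

theorem co_of_not_mem {n : ℕ} {J : Set (ZMod n)} {x : ZMod n} (h : x ∉ J) : co J x = 1 := by
  simp [co, h]

theorem isP_of {n k : ℕ} {p : Pos n} (h : ∀ q, Move n k p q → ∃ r, Move n k q r ∧ IsP n k r) :
    IsP n k p := by
  classical
  refine IsP.mk p (fun q => if hq : Move n k p q then (h q hq).choose else q) ?_ ?_
  · intro q hq
    rw [dif_pos hq]
    exact (h q hq).choose_spec.1
  · intro q hq
    rw [dif_pos hq]
    exact (h q hq).choose_spec.2

theorem move_gen {n k m : ℕ} (hm : 1 ≤ m) (hn : k + m = n) (p q : Pos n) :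
    Move n k p q ↔ q ≠ p ∧ (∀ j, q j ≤ p j) ∧
      ∃ a : ZMod n, ∀ l : ℕ, l < m → q (a + (l : ZMod n)) = p (a + (l : ZMod n)) := by
  have : NeZero n := ⟨by omega⟩
  have hn0 : ((n : ℕ) : ZMod n) = 0 := ZMod.natCast_self n
  constructor
  · rintro ⟨h1, h2, i, hi⟩
    refine ⟨h1, h2, i + (k : ZMod n), fun l hl => ?_⟩
    by_contra h
    obtain ⟨l', hl', e⟩ := hi _ h
    have h3 : ((k + l : ℕ) : ZMod n) = ((l' : ℕ) : ZMod n) := by
      push_cast
      linear_combination e
    rw [ZMod.natCast_eq_natCast_iff, Nat.ModEq, Nat.mod_eq_of_lt (by omega),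
      Nat.mod_eq_of_lt (by omega)] at h3
    omega
  · rintro ⟨h1, h2, a, ha⟩
    refine ⟨h1, h2, a + (m : ZMod n), fun j hj => ⟨(j - (a + (m : ZMod n))).val, ?_, ?_⟩⟩
    · by_contra hl
      have h3 : (j - (a + (m : ZMod n))).val < n := ZMod.val_lt _
      have h5 : (((j - (a + (m : ZMod n))).val : ℕ) : ZMod n) = j - (a + (m : ZMod n)) :=
        ZMod.natCast_zmod_val _
      obtain ⟨v, hv⟩ : ∃ v, (j - (a + (m : ZMod n))).val = k + v := ⟨_, (Nat.add_sub_cancel' (not_lt.1 hl)).symm⟩
      apply hj
      have h6 : j = a + (v : ZMod n) := by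
        rw [hv] at h5
        have h7 : ((k : ℕ) : ZMod n) + ((m : ℕ) : ZMod n) = 0 := by
          rw [← Nat.cast_add, hn, hn0]
        push_cast at h5
        linear_combination (-1 : ZMod n) * h5 + h7
      rw [h6]
      exact ha v (by omega)
    · rw [ZMod.natCast_zmod_val]
      ring

theorem exists_le_sum {α : Type} [DecidableEq α] (T : Finset α) (q : α → ℕ) (u : ℕ)
    (h : u ≤ ∑ x ∈ T, q x) : ∃ r : α → ℕ, (∀ x, r x ≤ q x) ∧ ∑ x ∈ T, r x = u := by
  induction T using Finset.induction_on generalizing u with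
  | empty =>
    refine ⟨fun _ => 0, fun _ => Nat.zero_le _, ?_⟩
    simp at h ⊢
    exact h.symm
  | insert a T ha ih =>
    rw [Finset.sum_insert ha] at h
    obtain ⟨r, hr1, hr2⟩ := ih (min u (∑ x ∈ T, q x)) (min_le_right _ _)
    refine ⟨Function.update r a (u - min u (∑ x ∈ T, q x)), ?_, ?_⟩
    · intro x
      by_cases hx : x = a
      · subst hx
        rw [Function.update_self]
        omega
      · rw [Function.update_of_ne hx]
        exact hr1 x
    · rw [Finset.sum_insert ha, Function.update_self, Finset.sum_update_of_notMem ha, hr2]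
      omega

/-- The structure: single stacks `S` and one group `T`. -/
theorem group {n k m : ℕ} (hm : 1 ≤ m) (hn : k + m = n) (S : Set (ZMod n)) (T : Finset (ZMod n))
    (hST : ∀ x ∈ S, x ∉ T)
    (h1 : ∀ a : ZMod n, (∃ l : ℕ, l < m ∧ a + (l : ZMod n) ∈ S) ∨
      ∀ x ∈ T, ∃ l : ℕ, l < m ∧ x = a + (l : ZMod n))
    (h2 : ∀ s ∈ S, ∃ a : ZMod n, ∀ l : ℕ, l < m →
      (a + (l : ZMod n) ∈ S → a + (l : ZMod n) = s) ∧ a + (l : ZMod n) ∉ T)
    (h3 : ∃ a : ZMod n, ∀ l : ℕ, l < m → a + (l : ZMod n) ∉ S) (t : ℕ) :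
    ∀ p : Pos n, (∀ s ∈ S, p s = t) → ∑ x ∈ T, p x = t → (∀ x, x ∉ S → x ∉ T → p x = 0) →
      IsP n k p := by
  classical
  induction t using Nat.strong_induction_on with
  | _ t ih =>
    intro p hS hT h0
    refine isP_of fun q hq => ?_
    obtain ⟨hne, hle, a, ha⟩ := (move_gen hm hn p q).1 hq
    have hq0 : ∀ x, x ∉ S → x ∉ T → q x = 0 := fun x hx hx' =>
      Nat.le_zero.1 ((hle x).trans (h0 x hx hx').le)
    have hqT : ∑ x ∈ T, q x ≤ t := (Finset.sum_le_sum fun x _ => hle x).trans hT.le
    -- some group is untouched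
    have hfull : (∃ s ∈ S, q s = t) ∨ ∑ x ∈ T, q x = t := by
      rcases h1 a with ⟨l, hl, hs⟩ | hTa
      · left
        exact ⟨_, hs, by rw [ha l hl, hS _ hs]⟩
      · right
        rw [← hT]
        refine Finset.sum_congr rfl fun x hx => ?_
        obtain ⟨l, hl, rfl⟩ := hTa x hx
        exact ha l hl
    -- the case where the group `T` is minimal
    by_cases hmin : ∀ s ∈ S, ∑ x ∈ T, q x ≤ q s
    · obtain ⟨b, hb⟩ := h3
      set u := ∑ x ∈ T, q x with hu
      have hut : u < t := by
        rcases lt_or_eq_of_le hqT with h | h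
        · exact h
        · exfalso
          apply hne
          funext x
          by_cases hxS : x ∈ S
          · have := hmin x hxS
            have := hle x
            rw [hS x hxS] at this ⊢
            omega
          · by_cases hxT : x ∈ T
            · exact (Finset.sum_eq_sum_iff_of_le (fun x _ => hle x)).1 (h.trans hT.symm) x hxT
            · rw [hq0 x hxS hxT, h0 x hxS hxT]
      refine ⟨fun x => if x ∈ S then u else q x, ?_, ?_⟩
      · rw [move_gen hm hn]
        refine ⟨?_, ?_, b, fun l hl => by rw [if_neg (hb l hl)]⟩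
        · intro h
          rcases hfull with ⟨s, hs, hst⟩ | h'
          · have := congrFun h s
            simp only [if_pos hs] at this
            omega
          · omega
        · intro j
          by_cases hj : j ∈ S
          · rw [if_pos hj]
            exact hmin j hj
          · rw [if_neg hj]
      · refine ih u hut _ (fun s hs => by rw [if_pos hs]) ?_ ?_
        · rw [hu]
          refine Finset.sum_congr rfl fun x hx => ?_
          rw [if_neg fun h => hST x h hx]
        · intro x hx hx'
          rw [if_neg hx]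
          exact hq0 x hx hx'
    · push Not at hmin
      obtain ⟨s₀, hs₀, hs₀T⟩ := hmin
      have hfin : Finite (ZMod n) := by
        have : NeZero n := ⟨by omega⟩
        infer_instance
      obtain ⟨s, hs, hsmin⟩ := Set.exists_min_image S q (Set.toFinite S) ⟨s₀, hs₀⟩
      have hsT : q s < ∑ x ∈ T, q x := (hsmin s₀ hs₀).trans_lt hs₀T
      obtain ⟨b, hb⟩ := h2 s hs
      obtain ⟨r, hr1, hr2⟩ := exists_le_sum T q (q s) hsT.le
      refine ⟨fun x => if x ∈ S then q s else if x ∈ T then r x else 0, ?_, ?_⟩
      · rw [move_gen hm hn]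
        refine ⟨?_, ?_, b, fun l hl => ?_⟩
        · intro h
          have h4 : ∑ x ∈ T, q x = q s := by
            rw [← hr2]
            refine Finset.sum_congr rfl fun x hx => ?_
            have := congrFun h x
            simp only [if_neg (fun h' => hST x h' hx), if_pos hx] at this
            exact this.symm
          omega
        · intro j
          by_cases hj : j ∈ S
          · rw [if_pos hj]
            exact hsmin j hj
          · rw [if_neg hj]
            by_cases hj' : j ∈ T
            · rw [if_pos hj']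
              exact hr1 j
            · rw [if_neg hj']
              exact Nat.zero_le _
        · obtain ⟨hb1, hb2⟩ := hb l hl
          by_cases hj : b + (l : ZMod n) ∈ S
          · rw [if_pos hj, hb1 hj]
          · rw [if_neg hj, if_neg hb2, hq0 _ hj hb2]
      · refine ih (q s) (hsT.trans_le hqT) _ (fun s hs => by rw [if_pos hs]) ?_ ?_
        · rw [← hr2]
          refine Finset.sum_congr rfl fun x hx => ?_
          rw [if_neg fun h => hST x h hx, if_pos hx]
        · intro x hx hx'
          rw [if_neg hx, if_neg hx']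

/-- the offsets of the single stacks -/
def Off (n m o : ℕ) : Prop := o = 0 ∨ o = n - m ∨ (m + 1 ≤ o ∧ o ≤ n - m ∧ m ∣ o - 1)

/-- the single stacks -/
def SS (n m : ℕ) (w : ZMod n) : Set (ZMod n) := {x | Off n m (x - w).val}

theorem val_off {n : ℕ} [NeZero n] (w : ZMod n) (A l : ℕ) (hA : A < n) (hl : l < n) :
    (w + (A : ZMod n) + (l : ZMod n) - w).val = if A + l < n then A + l else A + l - n := by
  have h1 : w + (A : ZMod n) + (l : ZMod n) - w = ((A + l : ℕ) : ZMod n) := by
    push_cast
    ring
  rw [h1, ZMod.val_natCast]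
  split_ifs with h
  · exact Nat.mod_eq_of_lt h
  · rw [Nat.mod_eq_sub_mod (by omega), Nat.mod_eq_of_lt (by omega)]

theorem eq_of_val {n : ℕ} [NeZero n] {w x y : ZMod n} (h : (x - w).val = (y - w).val) : x = y := by
  have := ZMod.val_injective n h
  exact sub_left_injective this

theorem struct {n m : ℕ} (hm : 2 ≤ m) (hn : n = 2 * m + 1 ∨ 3 * m + 1 ≤ n) (w : ZMod n)
    (T : Finset (ZMod n)) (hT : ∀ x ∈ T, 1 ≤ (x - w).val ∧ (x - w).val ≤ m) :
    (∀ x ∈ SS n m w, x ∉ T) ∧
    (∀ a : ZMod n, (∃ l : ℕ, l < m ∧ a + (l : ZMod n) ∈ SS n m w) ∨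
      ∀ x ∈ T, ∃ l : ℕ, l < m ∧ x = a + (l : ZMod n)) ∧
    (∀ s ∈ SS n m w, ∃ a : ZMod n, ∀ l : ℕ, l < m →
      (a + (l : ZMod n) ∈ SS n m w → a + (l : ZMod n) = s) ∧ a + (l : ZMod n) ∉ T) ∧
    (∃ a : ZMod n, ∀ l : ℕ, l < m → a + (l : ZMod n) ∉ SS n m w) := by
  have : NeZero n := ⟨by omega⟩
  have hrep : ∀ a : ZMod n, ∃ A : ℕ, A < n ∧ a = w + (A : ZMod n) := by
    intro a
    refine ⟨(a - w).val, ZMod.val_lt _, ?_⟩
    rw [ZMod.natCast_zmod_val]
    ring
  have hval : ∀ (A l : ℕ), A < n → l < m →
      (w + (A : ZMod n) + (l : ZMod n) - w).val = if A + l < n then A + l else A + l - n :=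
    fun A l hA hl => val_off w A l hA (by omega)
  have hdvd : ∀ x y : ℕ, m ∣ x → m ∣ y → x ≤ y → y < x + m → x = y := by
    intro x y hx hy h1 h2
    have h3 : m ∣ y - x := Nat.dvd_sub hy hx
    have h4 := Nat.eq_zero_of_dvd_of_lt h3 (by omega)
    omega
  refine ⟨?_, ?_, ?_, ?_⟩
  · intro x hx hxT
    have h1 := hT x hxT
    rcases hx with h | h | h <;> omega
  · intro a
    obtain ⟨A, hA, rfl⟩ := hrep a
    by_cases h0 : A = 0
    · left
      refine ⟨0, by omega, ?_⟩
      show Off n m _
      rw [hval A 0 hA (by omega), if_pos (by omega)]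
      left
      omega
    by_cases h1 : A = 1
    · right
      intro x hx
      have h2 := hT x hx
      refine ⟨(x - w).val - 1, by omega, ?_⟩
      apply eq_of_val (w := w)
      rw [hval A _ hA (by omega), if_pos (by omega)]
      omega
    left
    by_cases h2 : A ≤ m + 1
    · refine ⟨m + 1 - A, by omega, ?_⟩
      show Off n m _
      rw [hval A _ hA (by omega), if_pos (by omega)]
      right; right
      refine ⟨by omega, by omega, ?_⟩
      have : A + (m + 1 - A) - 1 = m := by omega
      rw [this]
    by_cases h3 : A ≤ n - m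
    · -- the least `o ≥ A` with `m ∣ o - 1`
      obtain ⟨o, ho1, ho2, ho3⟩ : ∃ o, A ≤ o ∧ o < A + m ∧ m ∣ o - 1 := by
        refine ⟨m * ((A - 1 + (m - 1)) / m) + 1, ?_, ?_, by simp⟩
        · have := Nat.lt_div_mul_add (a := A - 1 + (m - 1)) (b := m) (by omega)
          rw [mul_comm] at this
          omega
        · have := Nat.mul_div_le (A - 1 + (m - 1)) m
          omega
      by_cases ho : o ≤ n - m
      · refine ⟨o - A, by omega, ?_⟩
        show Off n m _
        rw [hval A _ hA (by omega), if_pos (by omega)]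
        right; right
        refine ⟨by omega, by omega, ?_⟩
        have : A + (o - A) - 1 = o - 1 := by omega
        rw [this]
        exact ho3
      · refine ⟨n - m - A, by omega, ?_⟩
        show Off n m _
        rw [hval A _ hA (by omega), if_pos (by omega)]
        right; left
        omega
    · refine ⟨n - A, by omega, ?_⟩
      show Off n m _
      rw [hval A _ hA (by omega), if_neg (by omega)]
      left
      omega
  · intro s hs
    obtain ⟨o, ho, rfl⟩ := hrep s
    have hso : (w + (o : ZMod n) - w).val = o := by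
      have := hval o 0 ho (by omega)
      rw [if_pos (by omega)] at this
      simpa using this
    have hs' : Off n m o := by
      have : Off n m (w + (o : ZMod n) - w).val := hs
      rwa [hso] at this
    -- the start of the window
    have key : ∀ A : ℕ, A < n → (∀ l : ℕ, l < m →
        (Off n m (if A + l < n then A + l else A + l - n) →
          (if A + l < n then A + l else A + l - n) = o) ∧
        ((if A + l < n then A + l else A + l - n) = 0 ∨
          m < (if A + l < n then A + l else A + l - n))) →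
        ∃ a : ZMod n, ∀ l : ℕ, l < m →
          (a + (l : ZMod n) ∈ SS n m w → a + (l : ZMod n) = w + (o : ZMod n)) ∧
            a + (l : ZMod n) ∉ T := by
      intro A hA h
      refine ⟨w + (A : ZMod n), fun l hl => ⟨fun h1 => ?_, fun h1 => ?_⟩⟩
      · apply eq_of_val (w := w)
        have h2 : Off n m (w + (A : ZMod n) + (l : ZMod n) - w).val := h1
        rw [hval A l hA hl] at h2 ⊢
        rw [hso]
        exact (h l hl).1 h2
      · have h2 := hT _ h1
        rw [hval A l hA hl] at h2
        have h3 := (h l hl).2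
        omega
    by_cases h0 : o = 0
    · refine key (n - m + 1) (by omega) fun l hl => ?_
      split_ifs with h
      · refine ⟨?_, Or.inr (by omega)⟩
        rintro (h1 | h1 | h1) <;> omega
      · refine ⟨fun _ => by omega, Or.inl (by omega)⟩
    by_cases h1 : o = n - m
    · refine key (n - m) (by omega) fun l hl => ?_
      rw [if_pos (by omega)]
      refine ⟨?_, Or.inr (by omega)⟩
      rintro (h2 | h2 | h2) <;> omega
    have h2 : m + 1 ≤ o ∧ o ≤ n - m ∧ m ∣ o - 1 := by
      rcases hs' with h | h | h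
      · exact absurd h h0
      · exact absurd h h1
      · exact h
    obtain ⟨h3, h4, h5⟩ := h2
    have h6 : 3 * m + 1 ≤ n := by omega
    by_cases h7 : o = m + 1
    · refine key (m + 1) (by omega) fun l hl => ?_
      rw [if_pos (by omega)]
      refine ⟨?_, Or.inr (by omega)⟩
      rintro (h8 | h8 | ⟨h8, h9, h10⟩)
      · omega
      · omega
      · have := hdvd (o - 1) (m + 1 + l - 1) h5 h10 (by omega) (by omega)
        omega
    · have h8 : 2 * m + 1 ≤ o := by
        have h9 : m ∣ o - 1 - m := Nat.dvd_sub h5 (dvd_refl m)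
        by_contra h10
        have := Nat.eq_zero_of_dvd_of_lt h9 (by omega)
        omega
      refine key (o - (m - 1)) (by omega) fun l hl => ?_
      rw [if_pos (by omega)]
      refine ⟨?_, Or.inr (by omega)⟩
      rintro (h9 | h9 | ⟨h9, h10, h11⟩)
      · omega
      · omega
      · have := hdvd (o - (m - 1) + l - 1) (o - 1) h11 h5 (by omega) (by omega)
        omega
  · refine ⟨w + ((1 : ℕ) : ZMod n), fun l hl h => ?_⟩
    have h2 : Off n m (w + ((1 : ℕ) : ZMod n) + (l : ZMod n) - w).val := h
    rw [hval 1 l (by omega) hl, if_pos (by omega)] at h2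
    rcases h2 with h3 | h3 | h3 <;> omega

theorem no_inv {n k m : ℕ} (hm : 2 ≤ m) (hkm : k + m = n) (hn : n = 2 * m + 1 ∨ 3 * m + 1 ≤ n)
    (z : Pos n) (h01 : ∀ j, z j = 0 ∨ z j = 1)
    (hinv : ∀ p, IsP n k p → ∀ (c : ℤ) (q : Pos n), (∀ j, (q j : ℤ) = p j + c * z j) →
      IsP n k q) : z = 0 := by
  classical
  have : NeZero n := ⟨by omega⟩
  by_contra hz0
  -- a stack `w` which is empty in `z`, if there is one
  obtain ⟨w, hw⟩ : ∃ w, z w = 0 ∨ ∀ x, z x = 1 := by
    by_cases h : ∃ w, z w = 0
    · obtain ⟨w, hw⟩ := h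
      exact ⟨w, Or.inl hw⟩
    · push Not at h
      exact ⟨0, Or.inr fun x => (h01 x).resolve_left (h x)⟩
  have hval : ∀ l : ℕ, l < n → (w + (l : ZMod n) - w).val = l := by
    intro l hl
    have : w + (l : ZMod n) - w = ((l : ℕ) : ZMod n) := by ring
    rw [this, ZMod.val_natCast, Nat.mod_eq_of_lt hl]
  set T' : Finset (ZMod n) := Finset.univ.filter
    (fun x => 1 ≤ (x - w).val ∧ (x - w).val ≤ m - 1) with hT'
  have hT'1 : ∀ x ∈ T', 1 ≤ (x - w).val ∧ (x - w).val ≤ m := by
    intro x hx
    rw [hT', Finset.mem_filter] at hx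
    exact ⟨hx.2.1, by omega⟩
  set T : Finset (ZMod n) := {w + (m : ZMod n)} with hT
  have hTm : (w + (m : ZMod n) - w).val = m := hval m (by omega)
  have hT1 : ∀ x ∈ T, 1 ≤ (x - w).val ∧ (x - w).val ≤ m := by
    intro x hx
    rw [hT, Finset.mem_singleton] at hx
    rw [hx, hTm]
    omega
  obtain ⟨a1, a2, a3, a4⟩ := struct hm hn w T hT1
  obtain ⟨b1, b2, b3, b4⟩ := struct hm hn w T' hT'1
  have hwS : w ∈ SS n m w := by
    left
    rw [sub_self, ZMod.val_zero]
  have hmS : w + (m : ZMod n) ∉ SS n m w := fun h => a1 _ h (Finset.mem_singleton_self _)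
  have hmT' : w + (m : ZMod n) ∉ T' := by
    rw [hT', Finset.mem_filter, hTm]
    omega
  set t : ℕ := ∑ x ∈ T', z x with ht
  -- the value of `p` on its support
  obtain ⟨v, hv⟩ : ∃ v, (v = t ∧ z w = 0) ∨ (v + 1 = t ∧ ∀ x, z x = 1) := by
    rcases hw with hw | hw
    · exact ⟨t, Or.inl ⟨rfl, hw⟩⟩
    · have h1 : w + ((1 : ℕ) : ZMod n) ∈ T' := by
        rw [hT', Finset.mem_filter, hval 1 (by omega)]
        exact ⟨Finset.mem_univ _, le_refl _, by omega⟩
      have h2 : 1 ≤ t := by
        rw [ht]
        have := Finset.single_le_sum (f := z) (fun x _ => Nat.zero_le _) h1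
        rw [hw] at this
        exact this
      exact ⟨t - 1, Or.inr ⟨by omega, hw⟩⟩
  have hp : IsP n k (fun x => if x ∈ SS n m w ∨ x ∈ T then v else 0) := by
    refine group (by omega) hkm (SS n m w) T a1 a2 a3 a4 v _ ?_ ?_ ?_
    · intro s hs
      simp only [hs, true_or, if_true]
    · rw [hT, Finset.sum_singleton, if_pos (Or.inr (Finset.mem_singleton_self _))]
    · intro x hx hx'
      rw [if_neg (not_or.2 ⟨hx, hx'⟩)]
  have hq : IsP n k (fun x => if x ∈ SS n m w then t else if x ∈ T' then z x else 0) := by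
    refine group (by omega) hkm (SS n m w) T' b1 b2 b3 b4 t _ ?_ ?_ ?_
    · intro s hs
      rw [if_pos hs]
    · rw [ht]
      refine Finset.sum_congr rfl fun x hx => ?_
      rw [if_neg fun h => b1 x h hx, if_pos hx]
    · intro x hx hx'
      rw [if_neg hx, if_neg hx']
  have hpz : IsP n k (fun x => (if x ∈ SS n m w ∨ x ∈ T then v else 0) + z x) :=
    hinv _ hp 1 _ fun j => by push_cast; ring
  refine not_both hpz _ ?_ hq
  rw [move_gen (by omega) hkm]
  refine ⟨?_, ?_, w, ?_⟩
  · intro h
    have h1 := congrFun h (w + (m : ZMod n))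
    simp only [hmS, hmT', if_false, false_or, Finset.mem_singleton_self, hT, if_true] at h1
    have hv0 : v = 0 := by omega
    have hzm : z (w + (m : ZMod n)) = 0 := by omega
    rcases hv with ⟨hv, hw0⟩ | ⟨hv, hw1⟩
    · apply hz0
      funext x
      have h2 := congrFun h x
      have ht0 : t = 0 := by omega
      have h3 : (if x ∈ SS n m w then t else if x ∈ T' then z x else 0) = 0 := by
        by_cases hx : x ∈ SS n m w
        · rw [if_pos hx, ht0]
        · rw [if_neg hx]
          by_cases hx' : x ∈ T'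
          · rw [if_pos hx']
            have := Finset.single_le_sum (f := z) (fun x _ => Nat.zero_le _) hx'
            omega
          · rw [if_neg hx']
      rw [h3] at h2
      show z x = 0
      omega
    · rw [hw1] at hzm
      omega
  · intro j
    by_cases hj : j ∈ SS n m w
    · rw [if_pos hj, if_pos (Or.inl hj)]
      rcases hv with ⟨hv, _⟩ | ⟨hv, hw1⟩
      · omega
      · rw [hw1]
        omega
    · rw [if_neg hj]
      by_cases hj' : j ∈ T'
      · rw [if_pos hj']
        exact Nat.le_add_left _ _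
      · rw [if_neg hj']
        exact Nat.zero_le _
  · intro l hl
    by_cases hl0 : l = 0
    · subst hl0
      rw [Nat.cast_zero, add_zero, if_pos hwS, if_pos (Or.inl hwS)]
      rcases hv with ⟨hv, hw0⟩ | ⟨hv, hw1⟩
      · rw [hw0]
        omega
      · rw [hw1]
        omega
    · have h1 : w + (l : ZMod n) ∈ T' := by
        rw [hT', Finset.mem_filter, hval l (by omega)]
        exact ⟨Finset.mem_univ _, by omega, by omega⟩
      have h2 : w + (l : ZMod n) ∉ SS n m w := fun h => b1 _ h h1
      have h3 : w + (l : ZMod n) ∉ T := by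
        rw [hT, Finset.mem_singleton]
        intro h
        have h4 := hval l (by omega)
        rw [h, hTm] at h4
        omega
      rw [if_neg h2, if_pos h1, if_neg (not_or.2 ⟨h2, h3⟩), zero_add]

theorem move_iff {n : ℕ} (hn : 5 ≤ n) (p q : Pos n) :
    Move n (n - 2) p q ↔
      q ≠ p ∧ (∀ j, q j ≤ p j) ∧ ∃ a : ZMod n, q a = p a ∧ q (a + 1) = p (a + 1) := by
  have : NeZero n := ⟨by omega⟩
  constructor
  · rintro ⟨h1, h2, i, hi⟩
    refine ⟨h1, h2, i - 2, ?_, ?_⟩
    · by_contra h
      obtain ⟨l, hl, e⟩ := hi _ h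
      have h3 : ((l + 2 : ℕ) : ZMod n) = 0 := by
        push_cast
        linear_combination (-1 : ZMod n) * e
      rw [ZMod.natCast_eq_zero_iff] at h3
      exact absurd (Nat.le_of_dvd (by omega) h3) (by omega)
    · by_contra h
      obtain ⟨l, hl, e⟩ := hi _ h
      have h3 : ((l + 1 : ℕ) : ZMod n) = 0 := by
        push_cast
        linear_combination (-1 : ZMod n) * e
      rw [ZMod.natCast_eq_zero_iff] at h3
      exact absurd (Nat.le_of_dvd (by omega) h3) (by omega)
  · rintro ⟨h1, h2, a, ha, hb⟩
    refine ⟨h1, h2, a + 2, fun j hj => ⟨(j - (a + 2)).val, ?_, ?_⟩⟩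
    · by_contra hl
      have h3 : (j - (a + 2)).val < n := ZMod.val_lt _
      have h4 : (j - (a + 2)).val = n - 2 ∨ (j - (a + 2)).val = n - 1 := by omega
      have h5 : (((j - (a + 2)).val : ℕ) : ZMod n) = j - (a + 2) := ZMod.natCast_zmod_val _
      have hn0 : ((n : ℕ) : ZMod n) = 0 := ZMod.natCast_self n
      rcases h4 with h4 | h4
      · rw [h4, Nat.cast_sub (by omega), hn0] at h5
        apply hj
        have : j = a := by
          push_cast at h5
          linear_combination (-1 : ZMod n) * h5
        rw [this, ha]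
      · rw [h4, Nat.cast_sub (by omega), hn0] at h5
        apply hj
        have : j = a + 1 := by
          push_cast at h5
          linear_combination (-1 : ZMod n) * h5
        rw [this, hb]
    · rw [ZMod.natCast_zmod_val]
      ring

theorem exists_max {n : ℕ} (hn : 5 ≤ n) (S : Set (ZMod n)) (hS : ∀ x ∈ S, x + 1 ∉ S) :
    ∃ J : Set (ZMod n), S ⊆ J ∧ IsMaxIndep J := by
  have : NeZero n := ⟨by omega⟩
  have : Fact (1 < n) := ⟨by omega⟩
  obtain ⟨J, hJ1, hJ2⟩ :=
    (Set.toFinite {T : Set (ZMod n) | ∀ x ∈ T, x + 1 ∉ T}).exists_le_maximal (a := S) hS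
  refine ⟨J, hJ1, hJ2.1, fun x hx => ?_⟩
  by_contra h
  rw [not_or] at h
  have h1 : ∀ y ∈ insert x J, y + 1 ∉ insert x J := by
    rintro y (rfl | hy) (h3 | h3)
    · exact one_ne_zero (add_eq_left.1 h3)
    · exact h.1 h3
    · apply h.2
      rw [← h3, add_sub_cancel_right]
      exact hy
    · exact hJ2.1 y hy h3
  exact hx (hJ2.2 h1 (Set.subset_insert x J) (Set.mem_insert x J))

/-- `co J` is a P-position for a maximal independent set `J`. -/
theorem co_isP {n : ℕ} (hn : 5 ≤ n) {J : Set (ZMod n)} (hJ : IsMaxIndep J) :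
    IsP n (n - 2) (co J) := by
  refine IsP.mk _ (fun _ => 0) (fun q hq => ?_) (fun q _ => isP_zero _ _)
  obtain ⟨h1, h2, a, ha, hb⟩ := (move_iff hn _ _).1 hq
  rw [move_iff hn]
  refine ⟨?_, fun j => Nat.zero_le _, ?_⟩
  · rintro h0
    have h0a : q a = 0 := by rw [← h0]; rfl
    have h0b : q (a + 1) = 0 := by rw [← h0]; rfl
    have haJ : a ∈ J := by
      by_contra h
      rw [co_of_not_mem h] at ha
      omega
    have hbJ : a + 1 ∈ J := by
      by_contra h
      rw [co_of_not_mem h] at hb
      omega
    exact hJ.1 a haJ hbJ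
  · obtain ⟨v, hv⟩ : ∃ v, q v ≠ co J v := by
      by_contra h
      push Not at h
      exact h1 (funext h)
    have hvJ : v ∉ J := by
      intro h
      have h3 := h2 v
      rw [co_of_mem h] at h3 hv
      omega
    have hv0 : q v = 0 := by
      have h3 := h2 v
      rw [co_of_not_mem hvJ] at h3 hv
      omega
    rcases hJ.2 v hvJ with h | h
    · refine ⟨v, hv0.symm, ?_⟩
      have h3 := h2 (v + 1)
      rw [co_of_mem h] at h3
      exact (Nat.le_zero.1 h3).symm
    · refine ⟨v - 1, ?_, ?_⟩
      · have h3 := h2 (v - 1)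
        rw [co_of_mem h] at h3
        exact (Nat.le_zero.1 h3).symm
      · rw [sub_add_cancel]
        exact hv0.symm

/-- The empty stacks of a nonzero P-position are pairwise non-neighbouring. -/
theorem cover {n : ℕ} (hn : 5 ≤ n) {p : Pos n} (hp : IsP n (n - 2) p) (h0 : p ≠ 0) (x : ZMod n)
    (h1 : p x = 0) : p (x + 1) ≠ 0 := by
  intro h2
  refine not_both hp 0 ?_ (isP_zero _ _)
  rw [move_iff hn]
  exact ⟨h0.symm, fun j => Nat.zero_le _, x, h1.symm, h2.symm⟩

/-- A P-position without empty stacks never has two neighbouring stacks with exactly one token. -/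
theorem no_adjacent_ones {n : ℕ} (hn : 5 ≤ n) {p : Pos n} (hp : IsP n (n - 2) p)
    (h0 : ∀ x, p x ≠ 0) (x : ZMod n) (h1 : p x = 1) : p (x + 1) ≠ 1 := by
  intro h2
  have : NeZero n := ⟨by omega⟩
  have hne : ∀ m : ℕ, 0 < m → m < n → (m : ZMod n) ≠ 0 := by
    intro m hm hmn h
    rw [ZMod.natCast_eq_zero_iff] at h
    exact absurd (Nat.le_of_dvd hm h) (by omega)
  obtain ⟨J, hJ1, hJ2⟩ := exists_max hn ({x - 1, x + 2} : Set (ZMod n)) (by
    rintro y (rfl | rfl) (h3 | h3)
    · exact hne 1 (by omega) (by omega) (by push_cast; linear_combination h3)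
    · have h4 : x - 1 + 1 = x + 2 := h3
      exact hne 2 (by omega) (by omega) (by push_cast; linear_combination (-1 : ZMod n) * h4)
    · have h4 : x + 2 + 1 = x - 1 := h3
      exact hne 4 (by omega) (by omega) (by push_cast; linear_combination h4)
    · have h4 : x + 2 + 1 = x + 2 := h3
      exact hne 1 (by omega) (by omega) (by push_cast; linear_combination h4))
  have ha : x - 1 ∈ J := hJ1 (Set.mem_insert _ _)
  have hb : x + 2 ∈ J := hJ1 (Set.mem_insert_of_mem _ rfl)
  have hx : x ∉ J := by
    have := hJ2.1 _ ha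
    rwa [sub_add_cancel] at this
  have hx1 : x + 1 ∉ J := by
    intro h
    apply hJ2.1 _ h
    have : x + 1 + 1 = x + 2 := by ring
    rw [this]
    exact hb
  refine not_both hp (co J) ?_ (co_isP hn hJ2)
  rw [move_iff hn]
  refine ⟨?_, ?_, x, ?_, ?_⟩
  · intro h
    apply h0 (x + 2)
    rw [← h, co_of_mem hb]
  · intro j
    by_cases hj : j ∈ J
    · rw [co_of_mem hj]
      exact Nat.zero_le _
    · rw [co_of_not_mem hj]
      exact Nat.one_le_iff_ne_zero.2 (h0 j)
  · rw [co_of_not_mem hx, h1]
  · rw [co_of_not_mem hx1, h2]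

/-- The P-positions with at most one token on each stack. -/
theorem zero_one {n : ℕ} (hn : 5 ≤ n) (p : Pos n) (h01 : ∀ j, p j = 0 ∨ p j = 1) :
    IsP n (n - 2) p ↔ p = 0 ∨ ∃ J : Set (ZMod n), IsMaxIndep J ∧ p = co J := by
  constructor
  · intro hp
    by_cases h0 : p = 0
    · exact Or.inl h0
    right
    have hI : ∀ x ∈ {x | p x = 0}, x + 1 ∉ {x | p x = 0} := fun x hx => cover hn hp h0 x hx
    obtain ⟨J, hJ1, hJ2⟩ := exists_max hn _ hI
    refine ⟨J, hJ2, ?_⟩
    by_contra hne
    have hle : ∀ j, co J j ≤ p j := by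
      intro j
      by_cases hj : j ∈ J
      · rw [co_of_mem hj]
        exact Nat.zero_le _
      · rw [co_of_not_mem hj]
        exact Nat.one_le_iff_ne_zero.2 fun h => hj (hJ1 h)
    by_cases ha : ∃ a : ZMod n, co J a = p a ∧ co J (a + 1) = p (a + 1)
    · refine not_both hp (co J) ?_ (co_isP hn hJ2)
      rw [move_iff hn]
      exact ⟨fun h => hne h.symm, hle, ha⟩
    · have hmem : ∀ x, co J x ≠ p x → x ∈ J := by
        intro x hx
        by_contra hxJ
        apply hx
        rw [co_of_not_mem hxJ]
        rcases h01 x with h | h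
        · exact absurd (hJ1 h) hxJ
        · exact h.symm
      have hall : ∀ x, p x ≠ 0 := by
        intro x hx
        have hxJ : x ∈ J := hJ1 hx
        apply ha
        refine ⟨x, by rw [co_of_mem hxJ, hx], ?_⟩
        by_contra h
        exact hJ2.1 x hxJ (hmem _ h)
      have h1 : ∀ x, p x = 1 := fun x => (h01 x).resolve_left (hall x)
      exact no_adjacent_ones hn hp hall 0 (h1 0) (h1 _)
  · rintro (rfl | ⟨J, hJ, rfl⟩)
    · exact isP_zero _ _
    · exact co_isP hn hJ

theorem no_invariant {n : ℕ} (hn : 5 ≤ n) (z : Pos n) (hz : IsInvariant n (n - 2) z) : z = 0 := by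
  by_contra hz0
  obtain ⟨h01, hinv⟩ := hz
  have hzP : IsP n (n - 2) z := hinv 0 (isP_zero _ _) 1 z fun j => by simp
  by_cases hb : ∃ b, z b = 0
  · obtain ⟨b, hb⟩ := hb
    have hI : ∀ x ∈ {x | z x = 0}, x + 1 ∉ {x | z x = 0} := fun x hx => cover hn hzP hz0 x hx
    obtain ⟨J, hJ1, hJ2⟩ := exists_max hn _ hI
    have hbJ : b ∈ J := hJ1 hb
    have hK : IsMaxIndep {x : ZMod n | x + 1 ∈ J} := by
      refine ⟨fun x hx h => hJ2.1 _ hx h, fun x hx => ?_⟩
      rcases hJ2.2 _ hx with h | h
      · exact Or.inl h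
      · refine Or.inr ?_
        show x - 1 + 1 ∈ J
        have : x - 1 + 1 = x + 1 - 1 := by ring
        rw [this]
        exact h
    have hq : IsP n (n - 2) (fun x => co {x : ZMod n | x + 1 ∈ J} x + z x) :=
      hinv _ (co_isP hn hK) 1 _ fun j => by push_cast; ring
    have hzb : z (b - 1) = 1 := by
      refine (h01 (b - 1)).resolve_left fun h => ?_
      apply cover hn hzP hz0 (b - 1) h
      rw [sub_add_cancel]
      exact hb
    refine no_adjacent_ones hn hq ?_ (b - 1) ?_ ?_
    · intro x hx
      have h1 : co {x : ZMod n | x + 1 ∈ J} x = 0 := by omega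
      have h2 : z x = 0 := by omega
      have h3 : x + 1 ∈ J := by
        by_contra h
        have h4 := co_of_not_mem (J := {x : ZMod n | x + 1 ∈ J}) (x := x) h
        omega
      exact hJ2.1 x (hJ1 h2) h3
    · have h1 : co {x : ZMod n | x + 1 ∈ J} (b - 1) = 0 := by
        apply co_of_mem
        show b - 1 + 1 ∈ J
        rw [sub_add_cancel]
        exact hbJ
      show co {x : ZMod n | x + 1 ∈ J} (b - 1) + z (b - 1) = 1
      rw [h1, hzb]
    · have h1 : co {x : ZMod n | x + 1 ∈ J} b = 1 := by
        apply co_of_not_mem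
        exact hJ2.1 b hbJ
      show co {x : ZMod n | x + 1 ∈ J} (b - 1 + 1) + z (b - 1 + 1) = 1
      rw [sub_add_cancel, h1, hb]
  · push Not at hb
    have h1 : ∀ x, z x = 1 := fun x => (h01 x).resolve_left (hb x)
    exact no_adjacent_ones hn hzP hb 0 (h1 0) (h1 _)

/-- The structure with overlapping groups `{e}`, `{f}`, `{c} ∪ T`, `{d} ∪ T`. -/
theorem groupB {n k m : ℕ} (hm : 1 ≤ m) (hn : k + m = n) (e f c d : ZMod n) (T : Finset (ZMod n))
    (hef : e ≠ f) (hec : e ≠ c) (hed : e ≠ d) (hfc : f ≠ c) (hfd : f ≠ d) (hcd : c ≠ d)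
    (heT : e ∉ T) (hfT : f ∉ T) (hcT : c ∉ T) (hdT : d ∉ T)
    (hW : ∀ a : ZMod n, (∃ l : ℕ, l < m ∧ e = a + (l : ZMod n)) ∨
      (∃ l : ℕ, l < m ∧ f = a + (l : ZMod n)) ∨
      (((∃ l : ℕ, l < m ∧ c = a + (l : ZMod n)) ∨ (∃ l : ℕ, l < m ∧ d = a + (l : ZMod n))) ∧
        ∀ x ∈ T, ∃ l : ℕ, l < m ∧ x = a + (l : ZMod n)))
    (we : ∃ a : ZMod n, ∀ l : ℕ, l < m → a + (l : ZMod n) ≠ f ∧ a + (l : ZMod n) ≠ c ∧
      a + (l : ZMod n) ≠ d ∧ a + (l : ZMod n) ∉ T)
    (wf : ∃ a : ZMod n, ∀ l : ℕ, l < m → a + (l : ZMod n) ≠ e ∧ a + (l : ZMod n) ≠ c ∧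
      a + (l : ZMod n) ≠ d ∧ a + (l : ZMod n) ∉ T)
    (wc : ∃ a : ZMod n, ∀ l : ℕ, l < m → a + (l : ZMod n) ≠ e ∧ a + (l : ZMod n) ≠ f ∧
      a + (l : ZMod n) ≠ d)
    (wd : ∃ a : ZMod n, ∀ l : ℕ, l < m → a + (l : ZMod n) ≠ e ∧ a + (l : ZMod n) ≠ f ∧
      a + (l : ZMod n) ≠ c) (t : ℕ) :
    ∀ p : Pos n, p e = t → p f = t → p d = p c → p c + ∑ x ∈ T, p x = t →
      (∀ x, x ≠ e → x ≠ f → x ≠ c → x ≠ d → x ∉ T → p x = 0) → IsP n k p := by
  classical
  induction t using Nat.strong_induction_on with
  | _ t ih =>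
    intro p he hf hd hT h0
    refine isP_of fun q hq => ?_
    obtain ⟨hne, hle, a, ha⟩ := (move_gen hm hn p q).1 hq
    have hq0 : ∀ x, x ≠ e → x ≠ f → x ≠ c → x ≠ d → x ∉ T → q x = 0 := fun x h1 h2 h3 h4 h5 =>
      Nat.le_zero.1 ((hle x).trans (h0 x h1 h2 h3 h4 h5).le)
    have hsT : ∑ x ∈ T, q x ≤ ∑ x ∈ T, p x := Finset.sum_le_sum fun x _ => hle x
    have key : q e = t ∨ q f = t ∨ q c + ∑ x ∈ T, q x = t ∨ q d + ∑ x ∈ T, q x = t := by
      rcases hW a with ⟨l, hl, h⟩ | ⟨l, hl, h⟩ | ⟨h, hTa⟩
      · left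
        rw [h, ha l hl, ← h, he]
      · right; left
        rw [h, ha l hl, ← h, hf]
      · have h1 : ∑ x ∈ T, q x = ∑ x ∈ T, p x := by
          refine Finset.sum_congr rfl fun x hx => ?_
          obtain ⟨l, hl, rfl⟩ := hTa x hx
          exact ha l hl
        rcases h with ⟨l, hl, h⟩ | ⟨l, hl, h⟩
        · right; right; left
          have : q c = p c := by rw [h, ha l hl]
          omega
        · right; right; right
          have : q d = p d := by rw [h, ha l hl]
          omega
    have hlt : ¬ (t ≤ q e ∧ t ≤ q f ∧ t ≤ q c + ∑ x ∈ T, q x ∧ t ≤ q d + ∑ x ∈ T, q x) := by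
      rintro ⟨h1, h2, h3, h4⟩
      apply hne
      have h5 := hle c
      have h6 : ∑ x ∈ T, q x = ∑ x ∈ T, p x := by omega
      have h7 := (Finset.sum_eq_sum_iff_of_le (fun x _ => hle x)).1 h6
      funext x
      have hx := hle x
      by_cases x1 : x = e
      · subst x1; omega
      by_cases x2 : x = f
      · subst x2; omega
      by_cases x3 : x = c
      · subst x3; omega
      by_cases x4 : x = d
      · subst x4; omega
      by_cases x5 : x ∈ T
      · exact h7 x x5
      rw [hq0 x x1 x2 x3 x4 x5, h0 x x1 x2 x3 x4 x5]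
    have fin : ∀ (u v : ℕ) (r : ZMod n → ℕ), u < t → u ≤ q e → u ≤ q f → v ≤ q c → v ≤ q d →
        (∀ x, r x ≤ q x) → v + ∑ x ∈ T, r x = u →
        (∃ b : ZMod n, ∀ l : ℕ, l < m →
          (fun x => if x = e then u else if x = f then u else if x = c then v else
            if x = d then v else if x ∈ T then r x else 0) (b + (l : ZMod n)) =
              q (b + (l : ZMod n))) →
        ∃ r', Move n k q r' ∧ IsP n k r' := by
      intro u v r hu h1 h2 h3 h4 h5 h6 h7
      have hTr : ∑ x ∈ T, (fun x => if x = e then u else if x = f then u else if x = c then v else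
            if x = d then v else if x ∈ T then r x else 0) x = ∑ x ∈ T, r x := by
        refine Finset.sum_congr rfl fun x hx => ?_
        have x1 : x ≠ e := fun h => heT (h ▸ hx)
        have x2 : x ≠ f := fun h => hfT (h ▸ hx)
        have x3 : x ≠ c := fun h => hcT (h ▸ hx)
        have x4 : x ≠ d := fun h => hdT (h ▸ hx)
        simp only [if_neg x1, if_neg x2, if_neg x3, if_neg x4, if_pos hx]
      refine ⟨fun x => if x = e then u else if x = f then u else if x = c then v else
            if x = d then v else if x ∈ T then r x else 0, ?_, ?_⟩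
      · rw [move_gen hm hn]
        refine ⟨?_, ?_, h7⟩
        · intro h
          have g1 := congrFun h e
          have g2 := congrFun h f
          have g3 := congrFun h c
          have g4 := congrFun h d
          have g5 : ∑ x ∈ T, q x = ∑ x ∈ T, r x := by
            rw [h] at hTr
            exact hTr
          simp only [if_true] at g1
          simp only [if_neg hef.symm, if_true] at g2
          simp only [if_neg hec.symm, if_neg hfc.symm, if_true] at g3
          simp only [if_neg hed.symm, if_neg hfd.symm, if_neg hcd.symm, if_true] at g4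
          omega
        · intro x
          by_cases x1 : x = e
          · subst x1; simp only [if_true]; exact h1
          by_cases x2 : x = f
          · subst x2; simp only [if_neg x1, if_true]; exact h2
          by_cases x3 : x = c
          · subst x3; simp only [if_neg x1, if_neg x2, if_true]; exact h3
          by_cases x4 : x = d
          · subst x4; simp only [if_neg x1, if_neg x2, if_neg x3, if_true]; exact h4
          by_cases x5 : x ∈ T
          · simp only [if_neg x1, if_neg x2, if_neg x3, if_neg x4, if_pos x5]; exact h5 x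
          simp only [if_neg x1, if_neg x2, if_neg x3, if_neg x4, if_neg x5]
          exact Nat.zero_le _
      · refine ih u hu _ ?_ ?_ ?_ ?_ ?_
        · simp only [if_true]
        · simp only [if_neg hef.symm, if_true]
        · simp only [if_neg hec.symm, if_neg hfc.symm, if_neg hed.symm, if_neg hfd.symm,
            if_neg hcd.symm, if_true]
        · rw [hTr]
          simp only [if_neg hec.symm, if_neg hfc.symm, if_true]
          exact h6
        · intro x x1 x2 x3 x4 x5
          simp only [if_neg x1, if_neg x2, if_neg x3, if_neg x4, if_neg x5]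
    have hcase : (q e ≤ q f ∧ q e ≤ q c + ∑ x ∈ T, q x ∧ q e ≤ q d + ∑ x ∈ T, q x) ∨
        (q f ≤ q e ∧ q f ≤ q c + ∑ x ∈ T, q x ∧ q f ≤ q d + ∑ x ∈ T, q x) ∨
        (q c + ∑ x ∈ T, q x ≤ q e ∧ q c + ∑ x ∈ T, q x ≤ q f ∧ q c ≤ q d) ∨
        (q d + ∑ x ∈ T, q x ≤ q e ∧ q d + ∑ x ∈ T, q x ≤ q f ∧ q d ≤ q c) := by omega
    rcases hcase with ⟨g1, g2, g3⟩ | ⟨g1, g2, g3⟩ | ⟨g1, g2, g3⟩ | ⟨g1, g2, g3⟩
    · obtain ⟨r, hr1, hr2⟩ := exists_le_sum T q (min (q e) (∑ x ∈ T, q x)) (min_le_right _ _)
      refine fin (q e) (q e - min (q e) (∑ x ∈ T, q x)) r (by omega) (le_refl _) g1 (by omega)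
        (by omega) hr1 (by omega) ?_
      obtain ⟨b, hb⟩ := we
      refine ⟨b, fun l hl => ?_⟩
      obtain ⟨b1, b2, b3, b4⟩ := hb l hl
      by_cases x1 : b + (l : ZMod n) = e
      · simp only [x1, if_true]
      · simp only [if_neg x1, if_neg b1, if_neg b2, if_neg b3, if_neg b4]
        exact (hq0 _ x1 b1 b2 b3 b4).symm
    · obtain ⟨r, hr1, hr2⟩ := exists_le_sum T q (min (q f) (∑ x ∈ T, q x)) (min_le_right _ _)
      refine fin (q f) (q f - min (q f) (∑ x ∈ T, q x)) r (by omega) g1 (le_refl _) (by omega)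
        (by omega) hr1 (by omega) ?_
      obtain ⟨b, hb⟩ := wf
      refine ⟨b, fun l hl => ?_⟩
      obtain ⟨b1, b2, b3, b4⟩ := hb l hl
      by_cases x1 : b + (l : ZMod n) = f
      · simp only [x1, if_neg hef.symm, if_true]
      · simp only [if_neg x1, if_neg b1, if_neg b2, if_neg b3, if_neg b4]
        exact (hq0 _ b1 x1 b2 b3 b4).symm
    · refine fin (q c + ∑ x ∈ T, q x) (q c) q (by omega) g1 g2 (le_refl _) g3
        (fun x => le_refl _) rfl ?_
      obtain ⟨b, hb⟩ := wc
      refine ⟨b, fun l hl => ?_⟩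
      obtain ⟨b1, b2, b3⟩ := hb l hl
      by_cases x1 : b + (l : ZMod n) = c
      · simp only [x1, if_neg hec.symm, if_neg hfc.symm, if_true]
      · by_cases x2 : b + (l : ZMod n) ∈ T
        · simp only [if_neg x1, if_neg b1, if_neg b2, if_neg b3, if_pos x2]
        · simp only [if_neg x1, if_neg b1, if_neg b2, if_neg b3, if_neg x2]
          exact (hq0 _ b1 b2 x1 b3 x2).symm
    · refine fin (q d + ∑ x ∈ T, q x) (q d) q (by omega) g1 g2 g3 (le_refl _)
        (fun x => le_refl _) rfl ?_
      obtain ⟨b, hb⟩ := wd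
      refine ⟨b, fun l hl => ?_⟩
      obtain ⟨b1, b2, b3⟩ := hb l hl
      by_cases x1 : b + (l : ZMod n) = d
      · simp only [x1, if_neg hed.symm, if_neg hfd.symm, if_neg hcd.symm, if_true]
      · by_cases x2 : b + (l : ZMod n) ∈ T
        · simp only [if_neg x1, if_neg b1, if_neg b2, if_neg b3, if_pos x2]
        · simp only [if_neg x1, if_neg b1, if_neg b2, if_neg b3, if_neg x2]
          exact (hq0 _ b1 b2 b3 x1 x2).symm

theorem stepB {n k m : ℕ} (hm : 2 ≤ m) (hn : n = 2 * m + 2) (hkm : k + m = n) (z : Pos n)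
    (hinv : ∀ p, IsP n k p → ∀ (c : ℤ) (q : Pos n), (∀ j, (q j : ℤ) = p j + c * z j) → IsP n k q)
    (w : ZMod n) (v t : ℕ) (T : Finset (ZMod n))
    (memT : ∀ x, x ∈ T ↔ 2 ≤ (x - w).val ∧ (x - w).val ≤ m)
    (ht' : z (w + ((1 : ℕ) : ZMod n)) +
      ∑ x ∈ T, (if (x - w).val ≤ m - 1 then z x else 0) = t)
    (h1 : v + z w = t) (h2 : t ≤ v + z (w + ((m + 2 : ℕ) : ZMod n)))
    (h3 : z (w + ((1 : ℕ) : ZMod n)) ≤ z (w + ((m + 1 : ℕ) : ZMod n))) :
    v = 0 ∧ z (w + ((m : ℕ) : ZMod n)) = 0 ∧ (t = 0 → z = 0) := by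
  classical
  have : NeZero n := ⟨by omega⟩
  have hrep : ∀ a : ZMod n, ∃ A : ℕ, A < n ∧ a = w + (A : ZMod n) := by
    intro a
    refine ⟨(a - w).val, ZMod.val_lt _, ?_⟩
    rw [ZMod.natCast_zmod_val]
    ring
  have hval : ∀ (A l : ℕ), A < n → l < m →
      (w + (A : ZMod n) + (l : ZMod n) - w).val = if A + l < n then A + l else A + l - n :=
    fun A l hA hl => val_off w A l hA (by omega)
  have hv1 : ∀ l : ℕ, l < n → (w + (l : ZMod n) - w).val = l := by
    intro l hl
    have : w + (l : ZMod n) - w = ((l : ℕ) : ZMod n) := by ring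
    rw [this, ZMod.val_natCast, Nat.mod_eq_of_lt hl]
  have hve : (w - w).val = 0 := by rw [sub_self, ZMod.val_zero]
  have ne : ∀ x y : ZMod n, (x - w).val ≠ (y - w).val → x ≠ y := by
    rintro x y h rfl
    exact h rfl
  set c := w + ((1 : ℕ) : ZMod n) with hc
  set d := w + ((m + 1 : ℕ) : ZMod n) with hd
  set f := w + ((m + 2 : ℕ) : ZMod n) with hf
  set g := w + ((m : ℕ) : ZMod n) with hg
  have vc : (c - w).val = 1 := hv1 1 (by omega)
  have vd : (d - w).val = m + 1 := hv1 (m + 1) (by omega)
  have vf : (f - w).val = m + 2 := hv1 (m + 2) (by omega)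
  have vg : (g - w).val = m := hv1 m (by omega)
  have hp : IsP n k (fun x => if x = w ∨ x = f ∨ x = g then v else 0) := by
    refine group (by omega) hkm {w, f} {g} ?_ ?_ ?_ ?_ v _ ?_ ?_ ?_
    · rintro x (rfl | rfl) h
      · rw [Finset.mem_singleton] at h
        exact ne _ _ (by omega) h
      · rw [Finset.mem_singleton] at h
        exact ne _ _ (by omega) h
    · intro a
      obtain ⟨A, hA, rfl⟩ := hrep a
      by_cases a0 : A = 0
      · left
        refine ⟨0, by omega, Or.inl ?_⟩
        rw [a0]
        simp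
      by_cases a1 : A ≤ m
      · right
        intro x hx
        rw [Finset.mem_singleton] at hx
        refine ⟨m - A, by omega, ?_⟩
        apply eq_of_val (w := w)
        rw [hx, vg, hval A _ hA (by omega), if_pos (by omega)]
        omega
      left
      by_cases a2 : A ≤ m + 2
      · refine ⟨m + 2 - A, by omega, Or.inr ?_⟩
        apply eq_of_val (w := w)
        rw [vf, hval A _ hA (by omega), if_pos (by omega)]
        omega
      · refine ⟨n - A, by omega, Or.inl ?_⟩
        apply eq_of_val (w := w)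
        rw [hve, hval A _ hA (by omega), if_neg (by omega)]
        omega
    · rintro s (rfl | rfl)
      · refine ⟨s + ((m + 3 : ℕ) : ZMod n), fun l hl => ?_⟩
        have h := hval (m + 3) l (by omega) hl
        constructor
        · rintro (h' | h')
          · exact h'
          · rw [h', vf] at h
            split_ifs at h <;> omega
        · rw [Finset.mem_singleton]
          intro h'
          rw [h', vg] at h
          split_ifs at h <;> omega
      · refine ⟨w + ((m + 2 : ℕ) : ZMod n), fun l hl => ?_⟩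
        have h := hval (m + 2) l (by omega) hl
        constructor
        · rintro (h' | h')
          · rw [h', hve] at h
            split_ifs at h <;> omega
          · exact h'
        · rw [Finset.mem_singleton]
          intro h'
          rw [h', vg] at h
          split_ifs at h <;> omega
    · refine ⟨w + ((1 : ℕ) : ZMod n), fun l hl => ?_⟩
      have h := hval 1 l (by omega) hl
      rw [if_pos (by omega)] at h
      rintro (h' | h')
      · rw [h', hve] at h
        omega
      · rw [h', vf] at h
        omega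
    · rintro s (rfl | rfl)
      · exact if_pos (Or.inl rfl)
      · exact if_pos (Or.inr (Or.inl rfl))
    · rw [Finset.sum_singleton]
      exact if_pos (Or.inr (Or.inr rfl))
    · intro x hx hx'
      refine if_neg ?_
      rintro (h | h | h)
      · exact hx (Or.inl h)
      · exact hx (Or.inr h)
      · exact hx' (Finset.mem_singleton.2 h)
  have hq : IsP n k (fun x => if x = w ∨ x = f then t else if x = d then z c else
      if x = c then z c else if x ∈ T then (if (x - w).val ≤ m - 1 then z x else 0) else 0) := by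
    have wc : w ≠ c := ne _ _ (by omega)
    have wd : w ≠ d := ne _ _ (by omega)
    have wf : w ≠ f := ne _ _ (by omega)
    have fc : f ≠ c := ne _ _ (by omega)
    have fd : f ≠ d := ne _ _ (by omega)
    have cd : c ≠ d := ne _ _ (by omega)
    have wT : w ∉ T := by rw [memT]; omega
    have fT : f ∉ T := by rw [memT]; omega
    have cT : c ∉ T := by rw [memT]; omega
    have dT : d ∉ T := by rw [memT]; omega
    refine groupB (by omega) hkm w f c d T wf wc wd fc fd cd wT fT cT dT
      ?_ ?_ ?_ ?_ ?_ t _ ?_ ?_ ?_ ?_ ?_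
    · intro a
      obtain ⟨A, hA, rfl⟩ := hrep a
      by_cases a0 : A = 0
      · left
        refine ⟨0, by omega, ?_⟩
        rw [a0]
        simp
      by_cases a1 : A = 1
      · right; right
        refine ⟨Or.inl ⟨0, by omega, ?_⟩, fun x hx => ?_⟩
        · rw [a1]
          simp [hc]
        · rw [memT] at hx
          refine ⟨(x - w).val - 1, by omega, ?_⟩
          apply eq_of_val (w := w)
          rw [hval A _ hA (by omega), if_pos (by omega)]
          omega
      by_cases a2 : A = 2
      · right; right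
        refine ⟨Or.inr ⟨m - 1, by omega, ?_⟩, fun x hx => ?_⟩
        · apply eq_of_val (w := w)
          rw [vd, hval A _ hA (by omega), if_pos (by omega)]
          omega
        · rw [memT] at hx
          refine ⟨(x - w).val - 2, by omega, ?_⟩
          apply eq_of_val (w := w)
          rw [hval A _ hA (by omega), if_pos (by omega)]
          omega
      by_cases a3 : A ≤ m + 2
      · right; left
        refine ⟨m + 2 - A, by omega, ?_⟩
        apply eq_of_val (w := w)
        rw [vf, hval A _ hA (by omega), if_pos (by omega)]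
        omega
      · left
        refine ⟨n - A, by omega, ?_⟩
        apply eq_of_val (w := w)
        rw [hve, hval A _ hA (by omega), if_neg (by omega)]
        omega
    · refine ⟨w + ((m + 3 : ℕ) : ZMod n), fun l hl => ?_⟩
      have h := hval (m + 3) l (by omega) hl
      refine ⟨fun h' => ?_, fun h' => ?_, fun h' => ?_, fun h' => ?_⟩
      · rw [h', vf] at h; split_ifs at h <;> omega
      · rw [h', vc] at h; split_ifs at h <;> omega
      · rw [h', vd] at h; split_ifs at h <;> omega
      · rw [memT, h] at h'; split_ifs at h' <;> omega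
    · refine ⟨w + ((m + 2 : ℕ) : ZMod n), fun l hl => ?_⟩
      have h := hval (m + 2) l (by omega) hl
      refine ⟨fun h' => ?_, fun h' => ?_, fun h' => ?_, fun h' => ?_⟩
      · rw [h', hve] at h; split_ifs at h <;> omega
      · rw [h', vc] at h; split_ifs at h <;> omega
      · rw [h', vd] at h; split_ifs at h <;> omega
      · rw [memT, h] at h'; split_ifs at h' <;> omega
    · refine ⟨w + ((1 : ℕ) : ZMod n), fun l hl => ?_⟩
      have h := hval 1 l (by omega) hl
      refine ⟨fun h' => ?_, fun h' => ?_, fun h' => ?_⟩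
      · rw [h', hve] at h; split_ifs at h <;> omega
      · rw [h', vf] at h; split_ifs at h <;> omega
      · rw [h', vd] at h; split_ifs at h <;> omega
    · refine ⟨w + ((2 : ℕ) : ZMod n), fun l hl => ?_⟩
      have h := hval 2 l (by omega) hl
      refine ⟨fun h' => ?_, fun h' => ?_, fun h' => ?_⟩
      · rw [h', hve] at h; split_ifs at h <;> omega
      · rw [h', vf] at h; split_ifs at h <;> omega
      · rw [h', vc] at h; split_ifs at h <;> omega
    · exact if_pos (Or.inl rfl)
    · exact if_pos (Or.inr rfl)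
    · simp only [wd.symm, fd.symm, wc.symm, fc.symm, cd, or_self, if_false, if_true]
    · simp only [wc.symm, fc.symm, cd, or_self, if_false, if_true]
      rw [← ht']
      congr 1
      refine Finset.sum_congr rfl fun x hx => ?_
      have x1 : x ≠ w := fun h => wT (h ▸ hx)
      have x2 : x ≠ f := fun h => fT (h ▸ hx)
      have x3 : x ≠ c := fun h => cT (h ▸ hx)
      have x4 : x ≠ d := fun h => dT (h ▸ hx)
      simp only [x1, x2, x3, x4, or_self, if_false, hx, if_true]
    · intro x x1 x2 x3 x4 x5
      simp only [x1, x2, x3, x4, x5, or_self, if_false]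
  have hpz : IsP n k (fun x => (if x = w ∨ x = f ∨ x = g then v else 0) + z x) :=
    hinv _ hp 1 _ fun j => by push_cast; ring
  by_contra hcon
  refine not_both hpz _ ?_ hq
  rw [move_gen (by omega) hkm]
  refine ⟨?_, ?_, w, ?_⟩
  · intro h
    apply hcon
    have hgw : g ≠ w := ne _ _ (by omega)
    have hgf : g ≠ f := ne _ _ (by omega)
    have hgd : g ≠ d := ne _ _ (by omega)
    have hgc : g ≠ c := ne _ _ (by omega)
    have hgm : ¬ (g - w).val ≤ m - 1 := by omega
    have e1 := congrFun h g
    simp only [hgw, hgf, hgd, hgc, hgm, or_self, or_true, if_false, if_true, ite_self] at e1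
    refine ⟨by omega, by omega, fun t0 => ?_⟩
    funext x
    have e2 := congrFun h x
    show z x = 0
    have hzc : z c = 0 := by omega
    have hs0 : ∑ x ∈ T, (if (x - w).val ≤ m - 1 then z x else 0) = 0 := by omega
    have hs1 := Finset.sum_eq_zero_iff.1 hs0
    have e3 : (if x = w ∨ x = f then t else if x = d then z c else
      if x = c then z c else if x ∈ T then (if (x - w).val ≤ m - 1 then z x else 0) else 0)
        = 0 := by
      by_cases x1 : x = w ∨ x = f
      · rw [if_pos x1, t0]
      by_cases x2 : x = d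
      · rw [if_neg x1, if_pos x2, hzc]
      by_cases x3 : x = c
      · rw [if_neg x1, if_neg x2, if_pos x3, hzc]
      by_cases x4 : x ∈ T
      · rw [if_neg x1, if_neg x2, if_neg x3, if_pos x4]
        exact hs1 x x4
      · rw [if_neg x1, if_neg x2, if_neg x3, if_neg x4]
    rw [e3] at e2
    omega
  · intro j
    show (if j = w ∨ j = f then t else if j = d then z c else
      if j = c then z c else if j ∈ T then (if (j - w).val ≤ m - 1 then z j else 0) else 0)
        ≤ (if j = w ∨ j = f ∨ j = g then v else 0) + z j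
    by_cases x1 : j = w
    · rw [if_pos (Or.inl x1), if_pos (Or.inl x1), x1]
      omega
    by_cases x1' : j = f
    · rw [if_pos (Or.inr x1'), if_pos (Or.inr (Or.inl x1')), x1']
      exact h2
    rw [if_neg (not_or.2 ⟨x1, x1'⟩)]
    by_cases x2 : j = d
    · rw [if_pos x2, x2]
      omega
    by_cases x3 : j = c
    · rw [if_neg x2, if_pos x3, x3]
      omega
    rw [if_neg x2, if_neg x3]
    split_ifs <;> omega
  · intro l hl
    have h := hv1 l (by omega)
    show (if w + (l : ZMod n) = w ∨ w + (l : ZMod n) = f then t else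
      if w + (l : ZMod n) = d then z c else
      if w + (l : ZMod n) = c then z c else if w + (l : ZMod n) ∈ T then
        (if (w + (l : ZMod n) - w).val ≤ m - 1 then z (w + (l : ZMod n)) else 0) else 0)
        = (if w + (l : ZMod n) = w ∨ w + (l : ZMod n) = f ∨ w + (l : ZMod n) = g then v else 0)
          + z (w + (l : ZMod n))
    by_cases l0 : l = 0
    · have hw0 : w + (l : ZMod n) = w := by rw [l0]; simp
      rw [if_pos (Or.inl hw0), if_pos (Or.inl hw0), hw0]
      omega
    have n1 : w + (l : ZMod n) ≠ w := ne _ _ (by omega)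
    have n2 : w + (l : ZMod n) ≠ f := ne _ _ (by omega)
    have n3 : w + (l : ZMod n) ≠ d := ne _ _ (by omega)
    have n4 : w + (l : ZMod n) ≠ g := ne _ _ (by omega)
    rw [if_neg (not_or.2 ⟨n1, n2⟩), if_neg n3, if_neg (not_or.2 ⟨n1, not_or.2 ⟨n2, n4⟩⟩)]
    by_cases l1 : l = 1
    · have hw1 : w + (l : ZMod n) = c := by rw [l1]
      rw [if_pos hw1, hw1]
      omega
    have n5 : w + (l : ZMod n) ≠ c := ne _ _ (by omega)
    have n6 : w + (l : ZMod n) ∈ T := by rw [memT]; omega
    rw [if_neg n5, if_pos n6, if_pos (by omega)]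
    omega

theorem alt {n k m : ℕ} (hm : 3 ≤ m) (hn : n = 2 * m + 2) (hkm : k + m = n)
    (z : Pos n) (hz : IsInvariant n k z) (hz0 : z ≠ 0) :
    (∀ w, z w = 0 → z (w + ((1 : ℕ) : ZMod n)) = 1 ∧ z (w + ((m + 1 : ℕ) : ZMod n)) = 0) ∧
      ∀ w, z w = 1 → z (w + ((1 : ℕ) : ZMod n)) = 0 := by
  classical
  have : NeZero n := ⟨by omega⟩
  obtain ⟨h01, hinv⟩ := hz
  have hnc : ((2 * m + 2 : ℕ) : ZMod n) = 0 := by rw [← hn]; exact ZMod.natCast_self n
  have key : ∀ w : ZMod n, ∃ t : ℕ,
      (z (w + ((1 : ℕ) : ZMod n)) ≤ t) ∧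
      (∀ x : ZMod n, 2 ≤ (x - w).val → (x - w).val ≤ m - 1 →
        z (w + ((1 : ℕ) : ZMod n)) + z x ≤ t) ∧
      ∀ v : ℕ, v + z w = t → t ≤ v + z (w + ((m + 2 : ℕ) : ZMod n)) →
        z (w + ((1 : ℕ) : ZMod n)) ≤ z (w + ((m + 1 : ℕ) : ZMod n)) →
        v = 0 ∧ z (w + ((m : ℕ) : ZMod n)) = 0 ∧ (t = 0 → z = 0) := by
    intro w
    obtain ⟨T, memT⟩ : ∃ T : Finset (ZMod n), ∀ x, x ∈ T ↔ 2 ≤ (x - w).val ∧ (x - w).val ≤ m := by
      refine ⟨Finset.univ.filter (fun x => 2 ≤ (x - w).val ∧ (x - w).val ≤ m), fun x => ?_⟩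
      rw [Finset.mem_filter]
      simp
    refine ⟨z (w + ((1 : ℕ) : ZMod n)) + ∑ x ∈ T, (if (x - w).val ≤ m - 1 then z x else 0),
      ?_, ?_, fun v h1 h2 h3 => stepB (by omega) hn hkm z hinv w v _ T memT rfl h1 h2 h3⟩
    · exact Nat.le_add_right _ _
    · intro x hx1 hx2
      refine Nat.add_le_add_left ?_ _
      refine le_trans ?_ (Finset.single_le_sum
        (f := fun x : ZMod n => if (x - w).val ≤ m - 1 then z x else 0)
        (fun x _ => Nat.zero_le _) (a := x) ?_)
      · simp only [hx2, if_true]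
        exact le_refl _
      · rw [memT]
        exact ⟨hx1, by omega⟩
  have hA : ∀ w, z w = 0 → z (w + ((1 : ℕ) : ZMod n)) = 1 ∧ z (w + ((m + 1 : ℕ) : ZMod n)) = 0 := by
    intro w hw
    obtain ⟨t, -, -, ht⟩ := key w
    have h1 : ¬ z (w + ((1 : ℕ) : ZMod n)) ≤ z (w + ((m + 1 : ℕ) : ZMod n)) := by
      intro h
      obtain ⟨g1, -, g2⟩ := ht t (by omega) (by omega) h
      exact hz0 (g2 g1)
    have h2 := h01 (w + ((1 : ℕ) : ZMod n))
    have h3 := h01 (w + ((m + 1 : ℕ) : ZMod n))
    omega
  have hv1 : ∀ (w : ZMod n) (l : ℕ), l < n → (w + (l : ZMod n) - w).val = l := by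
    intro w l hl
    have : w + (l : ZMod n) - w = ((l : ℕ) : ZMod n) := by ring
    rw [this, ZMod.val_natCast, Nat.mod_eq_of_lt hl]
  have hB : ∀ w, z w = 1 → z (w + ((1 : ℕ) : ZMod n)) = 0 := by
    intro w hw
    by_contra h
    have h1 : z (w + ((1 : ℕ) : ZMod n)) = 1 := by
      have := h01 (w + ((1 : ℕ) : ZMod n))
      omega
    have h2 : z (w + ((m + 1 : ℕ) : ZMod n)) = 1 := by
      rcases h01 (w + ((m + 1 : ℕ) : ZMod n)) with h' | h'
      · have h3 := (hA _ h').2
        have h4 : w + ((m + 1 : ℕ) : ZMod n) + ((m + 1 : ℕ) : ZMod n) = w := by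
          push_cast at hnc ⊢
          linear_combination hnc
        rw [h4] at h3
        omega
      · exact h'
    have h3 : z (w + ((m + 2 : ℕ) : ZMod n)) = 1 := by
      rcases h01 (w + ((m + 2 : ℕ) : ZMod n)) with h' | h'
      · have h3 := (hA _ h').2
        have h4 : w + ((m + 2 : ℕ) : ZMod n) + ((m + 1 : ℕ) : ZMod n) =
            w + ((1 : ℕ) : ZMod n) := by
          push_cast at hnc ⊢
          linear_combination hnc
        rw [h4] at h3
        omega
      · exact h'
    obtain ⟨t, ht1, ht2, ht⟩ := key w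
    obtain ⟨g1, g2, -⟩ := ht (t - 1) (by omega) (by omega) (by omega)
    have q2 := ht2 (w + ((2 : ℕ) : ZMod n)) (by rw [hv1 w 2 (by omega)])
      (by rw [hv1 w 2 (by omega)]; omega)
    have q3 : z (w + ((2 : ℕ) : ZMod n)) = 0 := by omega
    have q4 := (hA _ q3).1
    have q5 : w + ((2 : ℕ) : ZMod n) + ((1 : ℕ) : ZMod n) = w + ((3 : ℕ) : ZMod n) := by
      push_cast
      ring
    rw [q5] at q4
    by_cases hm3 : m = 3
    · rw [hm3] at g2
      omega
    · have q6 := ht2 (w + ((3 : ℕ) : ZMod n)) (by rw [hv1 w 3 (by omega)]; omega)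
        (by rw [hv1 w 3 (by omega)]; omega)
      omega
  exact ⟨hA, hB⟩

theorem stepC {n k m : ℕ} (hm : 5 ≤ m) (hmo : m % 2 = 1) (hn : n = 2 * m + 2) (hkm : k + m = n)
    (z : Pos n)
    (hinv : ∀ p, IsP n k p → ∀ (c : ℤ) (q : Pos n), (∀ j, (q j : ℤ) = p j + c * z j) → IsP n k q)
    (w : ZMod n) (hz : ∀ x, z x = if (x - w).val % 2 = 0 then 1 else 0) : False := by
  classical
  have : NeZero n := ⟨by omega⟩
  have hrep : ∀ a : ZMod n, ∃ A : ℕ, A < n ∧ a = w + (A : ZMod n) := by
    intro a
    refine ⟨(a - w).val, ZMod.val_lt _, ?_⟩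
    rw [ZMod.natCast_zmod_val]
    ring
  have hval : ∀ (A l : ℕ), A < n → l < m →
      (w + (A : ZMod n) + (l : ZMod n) - w).val = if A + l < n then A + l else A + l - n :=
    fun A l hA hl => val_off w A l hA (by omega)
  have hv1 : ∀ l : ℕ, l < n → (w + (l : ZMod n) - w).val = l := by
    intro l hl
    have : w + (l : ZMod n) - w = ((l : ℕ) : ZMod n) := by ring
    rw [this, ZMod.val_natCast, Nat.mod_eq_of_lt hl]
  have hve : (w - w).val = 0 := by rw [sub_self, ZMod.val_zero]
  have ne : ∀ x y : ZMod n, (x - w).val ≠ (y - w).val → x ≠ y := by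
    rintro x y h rfl
    exact h rfl
  set c := w + ((2 : ℕ) : ZMod n) with hc
  set d := w + ((m + 1 : ℕ) : ZMod n) with hd
  set f := w + ((m + 3 : ℕ) : ZMod n) with hf
  set g := w + ((m - 1 : ℕ) : ZMod n) with hg
  have vc : (c - w).val = 2 := hv1 2 (by omega)
  have vd : (d - w).val = m + 1 := hv1 (m + 1) (by omega)
  have vf : (f - w).val = m + 3 := hv1 (m + 3) (by omega)
  have vg : (g - w).val = m - 1 := hv1 (m - 1) (by omega)
  obtain ⟨T, memT⟩ : ∃ T : Finset (ZMod n), ∀ x, x ∈ T ↔
      4 ≤ (x - w).val ∧ (x - w).val ≤ m - 1 := by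
    refine ⟨Finset.univ.filter (fun x => 4 ≤ (x - w).val ∧ (x - w).val ≤ m - 1), fun x => ?_⟩
    rw [Finset.mem_filter]
    simp
  set t := 1 + ∑ x ∈ T, (if (x - w).val ≤ m - 3 then z x else 0) with ht
  have zw : z w = 1 := by rw [hz, hve, if_pos rfl]
  have zc : z c = 1 := by rw [hz, vc, if_pos rfl]
  have zd : z d = 1 := by rw [hz, vd, if_pos (by omega)]
  have zf : z f = 1 := by rw [hz, vf, if_pos (by omega)]
  have zg : z g = 1 := by rw [hz, vg, if_pos (by omega)]
  have hp : IsP n k (fun x => if x = w ∨ x = f ∨ x = g then t - 1 else 0) := by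
    refine group (by omega) hkm {w, f} {g} ?_ ?_ ?_ ?_ (t - 1) _ ?_ ?_ ?_
    · rintro x (rfl | rfl) h
      · rw [Finset.mem_singleton] at h
        exact ne _ _ (by omega) h
      · rw [Finset.mem_singleton] at h
        exact ne _ _ (by omega) h
    · intro a
      obtain ⟨A, hA, rfl⟩ := hrep a
      by_cases a0 : A = 0
      · left
        refine ⟨0, by omega, Or.inl ?_⟩
        rw [a0]
        simp
      by_cases a1 : A ≤ m - 1
      · right
        intro x hx
        rw [Finset.mem_singleton] at hx
        refine ⟨m - 1 - A, by omega, ?_⟩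
        apply eq_of_val (w := w)
        rw [hx, vg, hval A _ hA (by omega), if_pos (by omega)]
        omega
      left
      by_cases a2 : A ≤ m + 3
      · refine ⟨m + 3 - A, by omega, Or.inr ?_⟩
        apply eq_of_val (w := w)
        rw [vf, hval A _ hA (by omega), if_pos (by omega)]
        omega
      · refine ⟨n - A, by omega, Or.inl ?_⟩
        apply eq_of_val (w := w)
        rw [hve, hval A _ hA (by omega), if_neg (by omega)]
        omega
    · rintro s (rfl | rfl)
      · refine ⟨s + ((m + 4 : ℕ) : ZMod n), fun l hl => ?_⟩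
        have h := hval (m + 4) l (by omega) hl
        constructor
        · rintro (h' | h')
          · exact h'
          · rw [h', vf] at h
            split_ifs at h <;> omega
        · rw [Finset.mem_singleton]
          intro h'
          rw [h', vg] at h
          split_ifs at h <;> omega
      · refine ⟨w + ((m + 2 : ℕ) : ZMod n), fun l hl => ?_⟩
        have h := hval (m + 2) l (by omega) hl
        constructor
        · rintro (h' | h')
          · rw [h', hve] at h
            split_ifs at h <;> omega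
          · exact h'
        · rw [Finset.mem_singleton]
          intro h'
          rw [h', vg] at h
          split_ifs at h <;> omega
    · refine ⟨w + ((1 : ℕ) : ZMod n), fun l hl => ?_⟩
      have h := hval 1 l (by omega) hl
      rw [if_pos (by omega)] at h
      rintro (h' | h')
      · rw [h', hve] at h
        omega
      · rw [h', vf] at h
        omega
    · rintro s (rfl | rfl)
      · exact if_pos (Or.inl rfl)
      · exact if_pos (Or.inr (Or.inl rfl))
    · rw [Finset.sum_singleton]
      exact if_pos (Or.inr (Or.inr rfl))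
    · intro x hx hx'
      refine if_neg ?_
      rintro (h | h | h)
      · exact hx (Or.inl h)
      · exact hx (Or.inr h)
      · exact hx' (Finset.mem_singleton.2 h)
  have hq : IsP n k (fun x => if x = w ∨ x = f then t else if x = d then 1 else
      if x = c then 1 else if x ∈ T then (if (x - w).val ≤ m - 3 then z x else 0) else 0) := by
    have wc : w ≠ c := ne _ _ (by omega)
    have wd : w ≠ d := ne _ _ (by omega)
    have wf : w ≠ f := ne _ _ (by omega)
    have fc : f ≠ c := ne _ _ (by omega)
    have fd : f ≠ d := ne _ _ (by omega)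
    have cd : c ≠ d := ne _ _ (by omega)
    have wT : w ∉ T := by rw [memT]; omega
    have fT : f ∉ T := by rw [memT]; omega
    have cT : c ∉ T := by rw [memT]; omega
    have dT : d ∉ T := by rw [memT]; omega
    refine groupB (by omega) hkm w f c d T wf wc wd fc fd cd wT fT cT dT
      ?_ ?_ ?_ ?_ ?_ t _ ?_ ?_ ?_ ?_ ?_
    · intro a
      obtain ⟨A, hA, rfl⟩ := hrep a
      by_cases a0 : A = 0
      · left
        refine ⟨0, by omega, ?_⟩
        rw [a0]
        simp
      by_cases a1 : A ≤ 2
      · right; right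
        refine ⟨Or.inl ⟨2 - A, by omega, ?_⟩, fun x hx => ?_⟩
        · apply eq_of_val (w := w)
          rw [vc, hval A _ hA (by omega), if_pos (by omega)]
          omega
        · rw [memT] at hx
          refine ⟨(x - w).val - A, by omega, ?_⟩
          apply eq_of_val (w := w)
          rw [hval A _ hA (by omega), if_pos (by omega)]
          omega
      by_cases a2 : A = 3
      · right; right
        refine ⟨Or.inr ⟨m - 2, by omega, ?_⟩, fun x hx => ?_⟩
        · apply eq_of_val (w := w)
          rw [vd, hval A _ hA (by omega), if_pos (by omega)]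
          omega
        · rw [memT] at hx
          refine ⟨(x - w).val - 3, by omega, ?_⟩
          apply eq_of_val (w := w)
          rw [hval A _ hA (by omega), if_pos (by omega)]
          omega
      by_cases a3 : A ≤ m + 3
      · right; left
        refine ⟨m + 3 - A, by omega, ?_⟩
        apply eq_of_val (w := w)
        rw [vf, hval A _ hA (by omega), if_pos (by omega)]
        omega
      · left
        refine ⟨n - A, by omega, ?_⟩
        apply eq_of_val (w := w)
        rw [hve, hval A _ hA (by omega), if_neg (by omega)]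
        omega
    · refine ⟨w + ((m + 4 : ℕ) : ZMod n), fun l hl => ?_⟩
      have h := hval (m + 4) l (by omega) hl
      refine ⟨fun h' => ?_, fun h' => ?_, fun h' => ?_, fun h' => ?_⟩
      · rw [h', vf] at h; split_ifs at h <;> omega
      · rw [h', vc] at h; split_ifs at h <;> omega
      · rw [h', vd] at h; split_ifs at h <;> omega
      · rw [memT, h] at h'; split_ifs at h' <;> omega
    · refine ⟨w + ((m + 2 : ℕ) : ZMod n), fun l hl => ?_⟩
      have h := hval (m + 2) l (by omega) hl
      refine ⟨fun h' => ?_, fun h' => ?_, fun h' => ?_, fun h' => ?_⟩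
      · rw [h', hve] at h; split_ifs at h <;> omega
      · rw [h', vc] at h; split_ifs at h <;> omega
      · rw [h', vd] at h; split_ifs at h <;> omega
      · rw [memT, h] at h'; split_ifs at h' <;> omega
    · refine ⟨w + ((1 : ℕ) : ZMod n), fun l hl => ?_⟩
      have h := hval 1 l (by omega) hl
      refine ⟨fun h' => ?_, fun h' => ?_, fun h' => ?_⟩
      · rw [h', hve] at h; split_ifs at h <;> omega
      · rw [h', vf] at h; split_ifs at h <;> omega
      · rw [h', vd] at h; split_ifs at h <;> omega
    · refine ⟨w + ((3 : ℕ) : ZMod n), fun l hl => ?_⟩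
      have h := hval 3 l (by omega) hl
      refine ⟨fun h' => ?_, fun h' => ?_, fun h' => ?_⟩
      · rw [h', hve] at h; split_ifs at h <;> omega
      · rw [h', vf] at h; split_ifs at h <;> omega
      · rw [h', vc] at h; split_ifs at h <;> omega
    · exact if_pos (Or.inl rfl)
    · exact if_pos (Or.inr rfl)
    · simp only [wd.symm, fd.symm, wc.symm, fc.symm, cd, or_self, if_false, if_true]
    · simp only [wc.symm, fc.symm, cd, or_self, if_false, if_true]
      rw [ht]
      congr 1
      refine Finset.sum_congr rfl fun x hx => ?_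
      have x1 : x ≠ w := fun h => wT (h ▸ hx)
      have x2 : x ≠ f := fun h => fT (h ▸ hx)
      have x3 : x ≠ c := fun h => cT (h ▸ hx)
      have x4 : x ≠ d := fun h => dT (h ▸ hx)
      simp only [x1, x2, x3, x4, or_self, if_false, hx, if_true]
    · intro x x1 x2 x3 x4 x5
      simp only [x1, x2, x3, x4, x5, or_self, if_false]
  have hpz : IsP n k (fun x => (if x = w ∨ x = f ∨ x = g then t - 1 else 0) + z x) :=
    hinv _ hp 1 _ fun j => by push_cast; ring
  refine not_both hpz _ ?_ hq
  rw [move_gen (by omega) hkm]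
  refine ⟨?_, ?_, w + ((n - 1 : ℕ) : ZMod n), ?_⟩
  · intro h
    have hgw : g ≠ w := ne _ _ (by omega)
    have hgf : g ≠ f := ne _ _ (by omega)
    have hgd : g ≠ d := ne _ _ (by omega)
    have hgc : g ≠ c := ne _ _ (by omega)
    have hgm : ¬ (g - w).val ≤ m - 3 := by omega
    have e1 := congrFun h g
    simp only [hgw, hgf, hgd, hgc, hgm, or_self, or_true, if_false, if_true, ite_self, zg] at e1
    omega
  · intro j
    show (if j = w ∨ j = f then t else if j = d then 1 else
      if j = c then 1 else if j ∈ T then (if (j - w).val ≤ m - 3 then z j else 0) else 0)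
        ≤ (if j = w ∨ j = f ∨ j = g then t - 1 else 0) + z j
    by_cases x1 : j = w
    · rw [if_pos (Or.inl x1), if_pos (Or.inl x1), x1]
      omega
    by_cases x1' : j = f
    · rw [if_pos (Or.inr x1'), if_pos (Or.inr (Or.inl x1')), x1']
      omega
    rw [if_neg (not_or.2 ⟨x1, x1'⟩)]
    by_cases x2 : j = d
    · rw [if_pos x2, x2]
      omega
    by_cases x3 : j = c
    · rw [if_neg x2, if_pos x3, x3]
      omega
    rw [if_neg x2, if_neg x3]
    split_ifs <;> omega
  · intro l hl
    have h := hval (n - 1) l (by omega) hl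
    generalize w + ((n - 1 : ℕ) : ZMod n) + (l : ZMod n) = y at h
    show (if y = w ∨ y = f then t else if y = d then 1 else
      if y = c then 1 else if y ∈ T then (if (y - w).val ≤ m - 3 then z y else 0) else 0)
        = (if y = w ∨ y = f ∨ y = g then t - 1 else 0) + z y
    have h2 : (y - w).val = 2 * m + 1 ∨ (y - w).val ≤ m - 2 := by
      split_ifs at h <;> omega
    by_cases l0 : y = w
    · rw [if_pos (Or.inl l0), if_pos (Or.inl l0), l0]
      omega
    have y0 : (y - w).val ≠ 0 := by
      intro h0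
      apply l0
      apply eq_of_val (w := w)
      rw [h0, hve]
    have n2 : y ≠ f := ne _ _ (by omega)
    have n3 : y ≠ d := ne _ _ (by omega)
    have n4 : y ≠ g := ne _ _ (by omega)
    rw [if_neg (not_or.2 ⟨l0, n2⟩), if_neg n3, if_neg (not_or.2 ⟨l0, not_or.2 ⟨n2, n4⟩⟩)]
    by_cases l1 : y = c
    · rw [if_pos l1, l1]
      omega
    have y2 : (y - w).val ≠ 2 := by
      intro h0
      apply l1
      apply eq_of_val (w := w)
      rw [h0, vc]
    rw [if_neg l1]
    have hzy := hz y
    by_cases n6 : y ∈ T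
    · rw [if_pos n6]
      rw [memT] at n6
      split_ifs at hzy ⊢ <;> omega
    · rw [if_neg n6]
      rw [memT] at n6
      rw [hzy, if_neg (by omega)]

theorem p8 (u : ZMod 8) :
    IsP 8 5 (fun x => if x = u ∨ x = u + 4 ∨ x = u + 5 ∨ x = u + 1 then 1 else 0) := by
  refine group (n := 8) (k := 5) (m := 3) (by norm_num) (by norm_num) {u, u + 4, u + 5} {u + 1}
    ?_ ?_ ?_ ?_ 1 _ ?_ ?_ ?_
  · simp only [Set.mem_insert_iff, Set.mem_singleton_iff, Finset.mem_singleton]
    revert u
    decide +kernel
  · simp only [Set.mem_insert_iff, Set.mem_singleton_iff, Finset.mem_singleton]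
    revert u
    decide +kernel
  · simp only [Set.mem_insert_iff, Set.mem_singleton_iff, Finset.mem_singleton]
    revert u
    decide +kernel
  · simp only [Set.mem_insert_iff, Set.mem_singleton_iff]
    revert u
    decide +kernel
  · rintro s (rfl | rfl | rfl)
    · exact if_pos (Or.inl rfl)
    · exact if_pos (Or.inr (Or.inl rfl))
    · exact if_pos (Or.inr (Or.inr (Or.inl rfl)))
  · rw [Finset.sum_singleton]
    exact if_pos (Or.inr (Or.inr (Or.inr rfl)))
  · intro x hx hx'
    refine if_neg ?_
    rintro (h | h | h | h)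
    · exact hx (Or.inl h)
    · exact hx (Or.inr (Or.inl h))
    · exact hx (Or.inr (Or.inr h))
    · exact hx' (Finset.mem_singleton.2 h)

theorem step8 (z : Pos 8)
    (hinv : ∀ p, IsP 8 5 p → ∀ (c : ℤ) (q : Pos 8), (∀ j, (q j : ℤ) = p j + c * z j) → IsP 8 5 q)
    (w : ZMod 8) (hz : ∀ x, z x = if (x - w).val % 2 = 0 then 1 else 0) : False := by
  have hpz : IsP 8 5 (fun x => (if x = w ∨ x = w + 4 ∨ x = w + 5 ∨ x = w + 1 then 1 else 0) + z x) :=
    hinv _ (p8 w) 1 _ fun j => by push_cast; ring
  refine not_both hpz _ ?_ (p8 (w + 1))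
  rw [move_gen (m := 3) (by norm_num) (by norm_num)]
  simp only [hz]
  refine ⟨?_, ?_, w + 1, ?_⟩
  · intro h
    have h1 := congrFun h w
    clear h hpz hz
    revert h1
    revert w
    decide +kernel
  · clear hpz hz
    revert w
    decide +kernel
  · clear hpz hz
    revert w
    decide +kernel

theorem mainB {n k m : ℕ} (hm : 3 ≤ m) (hn : n = 2 * m + 2) (hkm : k + m = n)
    (z : Pos n) (hz : IsInvariant n k z) : z = 0 := by
  classical
  have : NeZero n := ⟨by omega⟩
  by_contra hz0
  obtain ⟨hA, hB⟩ := alt hm hn hkm z hz hz0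
  obtain ⟨h01, hinv⟩ := hz
  obtain ⟨w, hw⟩ : ∃ w, z w = 0 := by
    rcases h01 0 with h | h
    · exact ⟨_, h⟩
    · exact ⟨_, hB _ h⟩
  have hC : ∀ j : ℕ, z (w + ((2 * j : ℕ) : ZMod n)) = 0 := by
    intro j
    induction j with
    | zero => simpa using hw
    | succ j ih =>
      have h1 := (hA _ ih).1
      have h2 := hB _ h1
      have h3 : w + ((2 * j : ℕ) : ZMod n) + ((1 : ℕ) : ZMod n) + ((1 : ℕ) : ZMod n) =
          w + ((2 * (j + 1) : ℕ) : ZMod n) := by
        push_cast
        ring
      rw [h3] at h2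
      exact h2
  by_cases hodd : m % 2 = 1
  · have hw1 : ∀ x, z x = if (x - (w + ((1 : ℕ) : ZMod n))).val % 2 = 0 then 1 else 0 := by
      intro x
      have hx : x = w + ((1 : ℕ) : ZMod n) + (((x - (w + ((1 : ℕ) : ZMod n))).val : ℕ) : ZMod n) := by
        rw [ZMod.natCast_zmod_val]
        ring
      generalize (x - (w + ((1 : ℕ) : ZMod n))).val = y at hx ⊢
      split_ifs with hy
      · obtain ⟨j, rfl⟩ : ∃ j, y = 2 * j := ⟨y / 2, by omega⟩
        have h1 := (hA _ (hC j)).1
        have h2 : w + ((2 * j : ℕ) : ZMod n) + ((1 : ℕ) : ZMod n) = x := by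
          rw [hx]
          ring
        rw [h2] at h1
        exact h1
      · obtain ⟨j, rfl⟩ : ∃ j, y = 2 * j + 1 := ⟨y / 2, by omega⟩
        have h1 := hC (j + 1)
        have h2 : w + ((2 * (j + 1) : ℕ) : ZMod n) = x := by
          rw [hx]
          push_cast
          ring
        rw [h2] at h1
        exact h1
    by_cases h3 : m = 3
    · subst h3
      subst hn
      obtain rfl : k = 5 := by omega
      exact step8 z hinv _ hw1
    · exact stepC (by omega) hodd hn hkm z hinv _ hw1
  obtain ⟨j, hj⟩ : Even m := Nat.even_iff.2 (by omega)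
  have h1 := (hA _ (hC j)).1
  have h2 := (hA _ hw).2
  have h3 : w + ((2 * j : ℕ) : ZMod n) + ((1 : ℕ) : ZMod n) = w + ((m + 1 : ℕ) : ZMod n) := by
    rw [hj]
    push_cast
    ring
  rw [h3] at h1
  omega

/-- First part: `CN(n, k)`, `k ≤ n - 2`, has no nonzero invariant vector if `k > 2 n / 3`, or
`k = (n + 1) / 2`, or `k = (n + 2) / 2`.  Second part, for all `n ≥ 5`: the
P-positions of `CN(n, n - 2)` with at most one token on each stack are the empty position and the
positions `co J` with `J` a maximal set of pairwise non-neighbouring stacks; and a P-position without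
empty stacks never has exactly one token on each of two neighbouring stacks. -/
theorem result :
    (∀ n k : ℕ, k + 2 ≤ n → (2 * n < 3 * k ∨ 2 * k = n + 1 ∨ 2 * k = n + 2) →
      ∀ z : Pos n, IsInvariant n k z → z = 0) ∧
    ∀ n : ℕ, 5 ≤ n →
      (∀ p : Pos n, (∀ j, p j = 0 ∨ p j = 1) →
        (IsP n (n - 2) p ↔ p = 0 ∨ ∃ J : Set (ZMod n), IsMaxIndep J ∧ p = co J)) ∧
      (∀ p : Pos n, IsP n (n - 2) p → (∀ x, p x ≠ 0) → ∀ x, ¬ (p x = 1 ∧ p (x + 1) = 1)) := by
  refine ⟨fun n k hk h z hz => ?_, fun n hn => ⟨fun p hp => zero_one hn p hp,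
    fun _ hp h0 x h => no_adjacent_ones hn hp h0 x h.1 h.2⟩⟩
  rcases h with h | h | h
  · exact no_inv (m := n - k) (by omega) (by omega) (Or.inr (by omega)) z hz.1 hz.2
  · exact no_inv (m := n - k) (by omega) (by omega) (Or.inl (by omega)) z hz.1 hz.2
  · by_cases h6 : n = 6
    · subst h6
      obtain rfl : k = 4 := by omega
      exact no_invariant (n := 6) (by norm_num) z hz
    · exact mainB (m := n - k) (by omega) (by omega) (by omega) z hz

end Pool.Agent.Results.MP_30d1b9_co.NoInvariantVectors
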